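import Mathlib

/-!
# Cops and robber on compact geodesic metric spaces
-/

open Set Filter Topology
open scoped ENNReal

set_option autoImplicit false

namespace Pool.Agent.Q177.CR

/-- A game space: a nonempty compact metric space in which any two points `x`, `y` are joined by a
path of length `dist x y` (parametrised by arc length, it is an isometric embedding of the interval
`[0, dist x y]`). -/
def GameSpace (X : Type) [MetricSpace X] : Prop :=
  Nonempty X ∧ CompactSpace X ∧ ∀ x y : X, ∃ γ : ℝ → X, γ 0 = x ∧ γ (dist x y) = y ∧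
    ∀ s ∈ Icc 0 (dist x y), ∀ t ∈ Icc 0 (dist x y), dist (γ s) (γ t) = |s - t|

/-- The isometry group acts transitively. -/
def Homogeneous (X : Type) [MetricSpace X] : Prop :=
  ∀ x y : X, ∃ i : X ≃ᵢ X, i x = y

/-- A strategy of the robber against `k` cops: the initial positions, the agility function `τ` (the
value `τ (n + 1)` is used in the step from time `n` to time `n + 1`) and the rule which gives the
next position of the robber from the positions of all players at the times `0, …, n`. -/
structure RobberStrategy (X : Type) [MetricSpace X] (k : ℕ) where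
  r₀ : X
  c₀ : Fin k → X
  τ : ℕ → ℝ
  τ_pos : ∀ n, 0 < τ n
  τ_sum : ¬ Summable τ
  move : ∀ n : ℕ, (Fin (n + 1) → X) → (Fin (n + 1) → Fin k → X) → X
  legal : ∀ n hr hc, dist (hr (Fin.last n)) (move n hr hc) ≤ τ (n + 1)

/-- `r n`, `c n i` are the positions at time `n` in a play in which the robber follows the strategy
`S` and the cops make legal moves. -/
def IsPlay {X : Type} [MetricSpace X] {k : ℕ} (S : RobberStrategy X k) (r : ℕ → X)
    (c : ℕ → Fin k → X) : Prop :=
  r 0 = S.r₀ ∧ c 0 = S.c₀ ∧
    (∀ n : ℕ, r (n + 1) = S.move n (fun i => r i) (fun i => c i)) ∧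
    ∀ n i, dist (c n i) (c (n + 1) i) ≤ S.τ (n + 1)

/-- The cops win the play: some cop catches the robber, or the infimum of the distances is zero. -/
def CopsWinPlay {X : Type} [MetricSpace X] {k : ℕ} (r : ℕ → X) (c : ℕ → Fin k → X) : Prop :=
  (∃ n i, c n i = r n) ∨ ∀ ε : ℝ, 0 < ε → ∃ n i, dist (r n) (c n i) < ε

/-- `k` cops can win against every strategy of the robber. -/
def CopsCanWin (X : Type) [MetricSpace X] (k : ℕ) : Prop :=
  ∀ S : RobberStrategy X k, ∃ r c, IsPlay S r c ∧ CopsWinPlay r c

/-! ### One circle -/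

theorem exists_rep {L : ℝ} (δ : AddCircle L) : ∃ v : ℝ, (v : AddCircle L) = δ ∧ |v| = ‖δ‖ := by
  obtain ⟨x, rfl⟩ := QuotientAddGroup.mk_surjective δ
  refine ⟨x - round (L⁻¹ * x) * L, ?_, ?_⟩
  · have h : ((round (L⁻¹ * x) * L : ℝ) : AddCircle L) = 0 := by
      rw [AddCircle.coe_eq_zero_iff]
      exact ⟨round (L⁻¹ * x), by simp⟩
    rw [AddCircle.coe_sub, h, sub_zero]
  · exact (AddCircle.norm_eq L).symm

/-- The robber can run away on the circle from one cop. -/
theorem step {L τ : ℝ} (hL : 0 < L) (hτ : 0 ≤ τ) (h8 : τ ≤ L / 8) (δ : AddCircle L)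
    (h : L / 4 ≤ ‖δ‖) : ∃ s : AddCircle L, ‖s‖ ≤ τ ∧ L / 4 + τ ≤ ‖δ + s‖ := by
  obtain ⟨v, rfl, hv⟩ := exists_rep δ
  have hL' : |L| = L := abs_of_pos hL
  have hτn : ∀ t : ℝ, |t| = τ → ‖(t : AddCircle L)‖ ≤ τ := by
    intro t ht
    rw [(AddCircle.norm_coe_eq_abs_iff L hL.ne').2 (by rw [hL', ht]; linarith), ht]
  by_cases h1 : |v| ≤ L / 2 - τ
  · rcases le_total 0 v with h0 | h0
    · rw [abs_of_nonneg h0] at h1 hv
      refine ⟨(τ : ℝ), hτn τ (abs_of_nonneg hτ), ?_⟩
      rw [← AddCircle.coe_add]
      have h2 : |v + τ| = v + τ := abs_of_nonneg (by linarith)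
      rw [(AddCircle.norm_coe_eq_abs_iff L hL.ne').2 (by rw [hL', h2]; linarith), h2]
      linarith
    · rw [abs_of_nonpos h0] at h1 hv
      refine ⟨((-τ : ℝ) : AddCircle L), hτn (-τ) (by rw [abs_neg, abs_of_nonneg hτ]), ?_⟩
      rw [← AddCircle.coe_add]
      have h2 : |v + -τ| = -(v + -τ) := abs_of_nonpos (by linarith)
      rw [(AddCircle.norm_coe_eq_abs_iff L hL.ne').2 (by rw [hL', h2]; linarith), h2]
      linarith
  · push Not at h1
    refine ⟨0, by rw [norm_zero]; exact hτ, ?_⟩
    rw [add_zero, ← hv]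
    linarith

/-! ### The space -/

/-- the circumferences -/
noncomputable def Ln (n : ℕ) : ℝ := (1 / 2) ^ n

theorem Ln_pos (n : ℕ) : 0 < Ln n := by unfold Ln; positivity

theorem Ln_le_one (n : ℕ) : Ln n ≤ 1 := by
  unfold Ln
  exact pow_le_one₀ (by norm_num) (by norm_num)

theorem Ln_anti {m n : ℕ} (h : m ≤ n) : Ln n ≤ Ln m := by
  unfold Ln
  exact pow_le_pow_of_le_one (by norm_num) (by norm_num) h

theorem Ln_tendsto : Tendsto Ln atTop (𝓝 0) :=
  tendsto_pow_atTop_nhds_zero_of_lt_one (by norm_num) (by norm_num)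

instance fact_Ln (n : ℕ) : Fact (0 < Ln n) := ⟨Ln_pos n⟩

/-- The product of the circles of lengths `2^{-n}` with the supremum metric. -/
abbrev CircleProduct : Type := lp (fun n : ℕ => AddCircle (Ln n)) ∞

theorem norm_le_half (n : ℕ) (x : AddCircle (Ln n)) : ‖x‖ ≤ Ln n / 2 := by
  have := AddCircle.norm_le_half_period (Ln n) (x := x) (Ln_pos n).ne'
  rwa [abs_of_pos (Ln_pos n)] at this

/-- every sequence gives a point -/
noncomputable def mk (f : ∀ n, AddCircle (Ln n)) : CircleProduct :=
  ⟨f, memℓp_infty ⟨1 / 2, by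
    rintro _ ⟨n, rfl⟩
    have h1 := norm_le_half n (f n)
    have h2 := Ln_le_one n
    change ‖f n‖ ≤ 1 / 2
    linarith⟩⟩

theorem mk_apply (f : ∀ n, AddCircle (Ln n)) (n : ℕ) : mk f n = f n := rfl

theorem dist_coord (x y : CircleProduct) (n : ℕ) : ‖x n - y n‖ ≤ dist x y := by
  rw [dist_eq_norm]
  have := lp.norm_apply_le_norm (p := ∞) ENNReal.top_ne_zero (x - y) n
  rwa [lp.coeFn_sub, Pi.sub_apply] at this

theorem dist_le_of (x y : CircleProduct) {C : ℝ} (h : ∀ n, ‖x n - y n‖ ≤ C) : dist x y ≤ C := by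
  rw [dist_eq_norm]
  refine lp.norm_le_of_forall_le' C fun n => ?_
  rw [lp.coeFn_sub, Pi.sub_apply]
  exact h n

theorem compact_space : CompactSpace CircleProduct := by
  have hc : Continuous mk := by
    rw [continuous_iff_continuousAt]
    intro f
    rw [ContinuousAt, Metric.tendsto_nhds]
    intro ε hε
    obtain ⟨N, hN⟩ := ((Ln_tendsto.eventually (gt_mem_nhds hε))).exists_forall_of_atTop
    have h1 : ∀ᶠ g in 𝓝 f, ∀ n ∈ Finset.range N, ‖g n - f n‖ < ε / 2 := by
      rw [Filter.eventually_all_finset]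
      intro n _
      have : Tendsto (fun g : ∀ n, AddCircle (Ln n) => ‖g n - f n‖) (𝓝 f) (𝓝 ‖f n - f n‖) :=
        (((continuous_apply n).sub continuous_const).norm).tendsto f
      rw [sub_self, norm_zero] at this
      exact this.eventually (gt_mem_nhds (half_pos hε))
    filter_upwards [h1] with g hg
    have : dist (mk g) (mk f) ≤ ε / 2 := by
      apply dist_le_of
      intro n
      rw [mk_apply, mk_apply]
      by_cases hn : n < N
      · exact (hg n (Finset.mem_range.2 hn)).le
      · push Not at hn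
        have h2 := norm_le_half n (g n - f n)
        have h3 := hN n hn
        linarith
    linarith
  have hs : Function.Surjective mk := fun x => ⟨fun n => x n, by ext n; rfl⟩
  exact hs.compactSpace hc

theorem homogeneous : Homogeneous CircleProduct := by
  intro x y
  exact ⟨IsometryEquiv.addRight (y - x), by simp⟩

theorem geodesic (x y : CircleProduct) : ∃ γ : ℝ → CircleProduct, γ 0 = x ∧ γ (dist x y) = y ∧
    ∀ s ∈ Icc 0 (dist x y), ∀ t ∈ Icc 0 (dist x y), dist (γ s) (γ t) = |s - t| := by
  rcases eq_or_lt_of_le (dist_nonneg (x := x) (y := y)) with hD | hD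
  · have hxy : x = y := dist_eq_zero.1 hD.symm
    refine ⟨fun _ => x, rfl, hxy, ?_⟩
    intro s hs t ht
    rw [← hD] at hs ht
    have h1 : s = 0 := le_antisymm hs.2 hs.1
    have h2 : t = 0 := le_antisymm ht.2 ht.1
    rw [dist_self, h1, h2, sub_self, abs_zero]
  · choose v hv1 hv2 using fun n => exists_rep (y n - x n)
    set D := dist x y with hDdef
    have hvD : ∀ n, |v n| ≤ D := by
      intro n
      rw [hv2 n, ← norm_neg, neg_sub]
      exact dist_coord x y n
    have hvL : ∀ n, |v n| ≤ Ln n / 2 := fun n => by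
      rw [hv2 n]
      exact norm_le_half n _
    let γ : ℝ → CircleProduct := fun t => mk fun n => x n + ((t / D * v n : ℝ) : AddCircle (Ln n))
    have hdiff : ∀ s t : ℝ, ∀ n, (γ s n - γ t n) = (((s - t) / D * v n : ℝ) : AddCircle (Ln n)) := by
      intro s t n
      change (x n + ((s / D * v n : ℝ) : AddCircle (Ln n))) -
        (x n + ((t / D * v n : ℝ) : AddCircle (Ln n))) = _
      rw [add_sub_add_left_eq_sub, ← AddCircle.coe_sub]
      congr 1
      ring
    have hnorm : ∀ s ∈ Icc 0 D, ∀ t ∈ Icc 0 D, ∀ n, ‖γ s n - γ t n‖ = |s - t| / D * |v n| := by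
      intro s hs t ht n
      have h1 : |s - t| ≤ D := by
        rw [abs_le]
        constructor <;> linarith [hs.1, hs.2, ht.1, ht.2]
      have h2 : |s - t| / D ≤ 1 := by
        rw [div_le_one hD]
        exact h1
      rw [hdiff]
      have h3 : |(s - t) / D * v n| = |s - t| / D * |v n| := by
        rw [abs_mul, abs_div, abs_of_pos hD]
      rw [(AddCircle.norm_coe_eq_abs_iff (Ln n) (Ln_pos n).ne').2 ?_, h3]
      rw [h3, abs_of_pos (Ln_pos n)]
      calc |s - t| / D * |v n| ≤ 1 * |v n| := mul_le_mul_of_nonneg_right h2 (abs_nonneg _)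
        _ ≤ Ln n / 2 := by rw [one_mul]; exact hvL n
    refine ⟨γ, ?_, ?_, ?_⟩
    · ext n
      change x n + ((0 / D * v n : ℝ) : AddCircle (Ln n)) = x n
      rw [zero_div, zero_mul, AddCircle.coe_zero, add_zero]
    · ext n
      change x n + ((D / D * v n : ℝ) : AddCircle (Ln n)) = y n
      rw [div_self hD.ne', one_mul, hv1 n]
      abel
    · intro s hs t ht
      have hn := hnorm s hs t ht
      apply le_antisymm
      · apply dist_le_of
        intro n
        rw [hn n]
        calc |s - t| / D * |v n| ≤ |s - t| / D * D :=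
              mul_le_mul_of_nonneg_left (hvD n) (by positivity)
          _ = |s - t| := by field_simp
      · by_contra hlt
        push Not at hlt
        have hle : ∀ n, ‖x n - y n‖ ≤ D / |s - t| * dist (γ s) (γ t) := by
          intro n
          have h0 : 0 < |s - t| := lt_of_le_of_lt dist_nonneg hlt
          have h1 := dist_coord (γ s) (γ t) n
          rw [hn n] at h1
          have h2 : ‖x n - y n‖ = |v n| := by
            rw [hv2 n, ← norm_neg, neg_sub]
          rw [h2]
          have h3 : |v n| = D / |s - t| * (|s - t| / D * |v n|) := by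
            field_simp
          rw [h3]
          exact mul_le_mul_of_nonneg_left h1 (by positivity)
        have h4 := dist_le_of x y hle
        have h0 : 0 < |s - t| := lt_of_le_of_lt dist_nonneg hlt
        have h5 : D / |s - t| * dist (γ s) (γ t) < D / |s - t| * |s - t| :=
          mul_lt_mul_of_pos_left hlt (by positivity)
        have h6 : D / |s - t| * |s - t| = D := by field_simp
        rw [h6] at h5
        exact absurd h4 (not_le.2 h5)

theorem gameSpace : GameSpace CircleProduct := ⟨⟨0⟩, compact_space, geodesic⟩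

/-! ### The strategy of the robber -/

/-- the displacement of the robber -/
theorem exists_disp (k : ℕ) (r : CircleProduct) (c : Fin k → CircleProduct) : ∃ s : CircleProduct,
    ‖s‖ ≤ Ln (k + 3) ∧ ∀ i : Fin k, Ln i / 4 ≤ ‖r i - c i i‖ →
      Ln i / 4 + Ln (k + 3) ≤ ‖r i + s i - c i i‖ := by
  have hL8 : ∀ j : ℕ, j < k → Ln (k + 3) ≤ Ln j / 8 := by
    intro j hj
    have h1 : Ln (k + 3) = Ln k / 8 := by
      unfold Ln
      rw [pow_add]
      norm_num
      ring
    rw [h1]
    have := Ln_anti hj.le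
    linarith
  have h : ∀ j : ℕ, ∃ s : AddCircle (Ln j), ‖s‖ ≤ Ln (k + 3) ∧ ∀ hj : j < k,
      Ln j / 4 ≤ ‖r j - c ⟨j, hj⟩ j‖ → Ln j / 4 + Ln (k + 3) ≤ ‖r j + s - c ⟨j, hj⟩ j‖ := by
    intro j
    by_cases hj : j < k
    · by_cases hd : Ln j / 4 ≤ ‖r j - c ⟨j, hj⟩ j‖
      · obtain ⟨s, hs1, hs2⟩ := step (Ln_pos j) (Ln_pos (k + 3)).le (hL8 j hj) _ hd
        refine ⟨s, hs1, fun _ _ => ?_⟩
        have : r j + s - c ⟨j, hj⟩ j = r j - c ⟨j, hj⟩ j + s := by abel
        rw [this]
        exact hs2
      · exact ⟨0, by rw [norm_zero]; exact (Ln_pos _).le, fun _ h => absurd h hd⟩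
    · exact ⟨0, by rw [norm_zero]; exact (Ln_pos _).le, fun h => absurd h hj⟩
  choose s hs1 hs2 using h
  refine ⟨mk s, lp.norm_le_of_forall_le' _ fun j => hs1 j, fun i hi => ?_⟩
  exact hs2 i i.2 hi

/-- The robber runs away from cop number `i` in the circle number `i`. -/
noncomputable def strategy (k : ℕ) : RobberStrategy CircleProduct k where
  r₀ := 0
  c₀ := fun _ => mk fun n => ((Ln n / 2 : ℝ) : AddCircle (Ln n))
  τ := fun _ => Ln (k + 3)
  τ_pos := fun _ => Ln_pos _
  τ_sum := by
    intro h
    have := h.tendsto_atTop_zero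
    have h2 := tendsto_nhds_unique this tendsto_const_nhds
    exact (Ln_pos (k + 3)).ne h2
  move := fun n hr hc => hr (Fin.last n) +
    Classical.choose (exists_disp k (hr (Fin.last n)) (hc (Fin.last n)))
  legal := by
    intro n hr hc
    have h := (Classical.choose_spec (exists_disp k (hr (Fin.last n)) (hc (Fin.last n)))).1
    rw [dist_eq_norm]
    rw [show hr (Fin.last n) - (hr (Fin.last n) +
      Classical.choose (exists_disp k (hr (Fin.last n)) (hc (Fin.last n)))) =
      -Classical.choose (exists_disp k (hr (Fin.last n)) (hc (Fin.last n))) by abel, norm_neg]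
    exact h

theorem invariant (k : ℕ) (r : ℕ → CircleProduct) (c : ℕ → Fin k → CircleProduct)
    (h : IsPlay (strategy k) r c) (n : ℕ) (i : Fin k) : Ln i / 4 ≤ ‖r n i - c n i i‖ := by
  obtain ⟨hr0, hc0, hr, hc⟩ := h
  induction n with
  | zero =>
    rw [hr0, hc0]
    change Ln i / 4 ≤ ‖(0 : AddCircle (Ln i)) - ((Ln i / 2 : ℝ) : AddCircle (Ln i))‖
    rw [zero_sub, norm_neg, AddCircle.norm_half_period_eq, abs_of_pos (Ln_pos _)]
    have := Ln_pos (i : ℕ)
    linarith
  | succ n ih =>
    have h1 := (Classical.choose_spec (exists_disp k (r n) (c n))).2 i ih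
    have h2 : r (n + 1) = r n + Classical.choose (exists_disp k (r n) (c n)) := by
      rw [hr n]
      rfl
    have h3 := dist_coord (c n i) (c (n + 1) i) i
    have h4 := h3.trans (hc n i)
    change _ ≤ Ln (k + 3) at h4
    rw [h2]
    have h5 : (r n + Classical.choose (exists_disp k (r n) (c n))) i =
        r n i + Classical.choose (exists_disp k (r n) (c n)) i := rfl
    rw [h5]
    have h6 : r n i + Classical.choose (exists_disp k (r n) (c n)) i - c (n + 1) i i =
        (r n i + Classical.choose (exists_disp k (r n) (c n)) i - c n i i) -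
          (c (n + 1) i i - c n i i) := by abel
    rw [h6]
    have h7 := norm_sub_norm_le (r n i + Classical.choose (exists_disp k (r n) (c n)) i - c n i i)
      (c (n + 1) i i - c n i i)
    have h8 : ‖c (n + 1) i i - c n i i‖ = ‖c n i i - c (n + 1) i i‖ := norm_sub_rev _ _
    linarith

theorem robber_wins (k : ℕ) (r : ℕ → CircleProduct) (c : ℕ → Fin k → CircleProduct)
    (h : IsPlay (strategy k) r c) (n : ℕ) (i : Fin k) : Ln k / 4 ≤ dist (r n) (c n i) := by
  have h1 := invariant k r c h n i
  have h2 := dist_coord (r n) (c n i) i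
  have h3 := Ln_anti i.2.le
  linarith

theorem not_copsCanWin (k : ℕ) : ¬ CopsCanWin CircleProduct k := by
  intro hw
  obtain ⟨r, c, hp, hw⟩ := hw (strategy k)
  have h := robber_wins k r c hp
  have hL := Ln_pos k
  rcases hw with ⟨n, i, hni⟩ | hw
  · have := h n i
    rw [hni, dist_self] at this
    linarith
  · obtain ⟨n, i, hni⟩ := hw (Ln k / 4) (by linarith)
    have := h n i
    linarith

end Pool.Agent.Q177.CR
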